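import Pool.Agent.Helper54.PseudoGraph

/-!
# Orders of pseudo k-regular graphs (MP_1ed35b_co)

There is a connected pseudo 16-regular graph on 19 vertices, but none on 20 vertices. Hence
`N(16) ≤ 19` and the answer to Q1 is negative.
-/

open Finset

namespace Pool.Agent.Results.MP_1ed35b_co.GapAtTwenty

open Classical in
/-- The average 2-degree of a vertex `i`: the mean degree of the neighbours of `i`. -/
noncomputable def avgTwoDegree {n : ℕ} (G : SimpleGraph (Fin n)) (i : Fin n) : ℚ :=
  (∑ j ∈ G.neighborFinset i, (G.degree j : ℚ)) / (G.degree i : ℚ)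

open Classical in
/-- `G` is a (connected) pseudo `k`-regular graph: it has at least two vertices, it is connected,
all average 2-degrees are `k`, and the degrees are not all equal. -/
def IsPseudoRegular {n : ℕ} (k : ℕ) (G : SimpleGraph (Fin n)) : Prop :=
  2 ≤ n ∧ G.Connected ∧ (∀ i, avgTwoDegree G i = (k : ℚ)) ∧ ∃ i j, G.degree i ≠ G.degree j

/-- `N k` is the least number of vertices of a pseudo `k`-regular graph. -/
noncomputable def N (k : ℕ) : ℕ := sInf {n | ∃ G : SimpleGraph (Fin n), IsPseudoRegular k G}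

/-! ### The graph on 19 vertices -/

/-- Edges of the complement: a double star with four leaves at each centre, `K₄` minus an edge,
and two triangles sharing a vertex. -/
def coEdges : List (ℕ × ℕ) :=
  [(0, 1), (0, 2), (0, 3), (0, 4), (0, 5), (1, 6), (1, 7), (1, 8), (1, 9),
   (10, 11), (10, 12), (10, 13), (11, 12), (11, 13),
   (14, 15), (14, 16), (15, 16), (14, 17), (14, 18), (17, 18)]

/-- Adjacency test of the graph on 19 vertices. -/
def adj19 (i j : Fin 19) : Bool :=
  !(Nat.beq i.1 j.1) && !(coEdges.any fun e =>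
    (Nat.beq e.1 i.1 && Nat.beq e.2 j.1) || (Nat.beq e.1 j.1 && Nat.beq e.2 i.1))

/-- The graph on 19 vertices. -/
def G19 : SimpleGraph (Fin 19) where
  Adj i j := adj19 i j = true
  symm := ⟨by decide +kernel⟩
  loopless := ⟨by decide +kernel⟩

instance : DecidableRel G19.Adj := fun i j => inferInstanceAs (Decidable (adj19 i j = true))

theorem G19_sum : ∀ i, ∑ j ∈ G19.neighborFinset i, G19.degree j = 16 * G19.degree i := by
  decide +kernel

theorem G19_deg : ∀ i, G19.degree i ≠ 0 := by
  decide +kernel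

theorem G19_adj : ∀ w : Fin 19, ∃ u, G19.Adj 10 u ∧ (u = w ∨ G19.Adj u w) := by
  decide +kernel

theorem G19_conn : G19.Connected := by
  rw [SimpleGraph.connected_iff_exists_forall_reachable]
  refine ⟨10, fun w => ?_⟩
  obtain ⟨u, h1, h2⟩ := G19_adj w
  rcases h2 with rfl | h2
  · exact h1.reachable
  · exact h1.reachable.trans h2.reachable

theorem G19_ne : G19.degree 0 ≠ G19.degree 2 := by
  decide +kernel

theorem degree_inst {n : ℕ} (G : SimpleGraph (Fin n)) (i : Fin n)
    (a b : Fintype (G.neighborSet i)) :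
    @SimpleGraph.degree _ G i a = @SimpleGraph.degree _ G i b := by
  rw [Subsingleton.elim a b]

theorem neighborFinset_inst {n : ℕ} (G : SimpleGraph (Fin n)) (i : Fin n)
    (a b : Fintype (G.neighborSet i)) :
    @SimpleGraph.neighborFinset _ G i a = @SimpleGraph.neighborFinset _ G i b := by
  rw [Subsingleton.elim a b]

theorem avgTwoDegree_eq {n : ℕ} (G : SimpleGraph (Fin n)) [DecidableRel G.Adj] (i : Fin n) :
    avgTwoDegree G i = (∑ j ∈ G.neighborFinset i, (G.degree j : ℚ)) / (G.degree i : ℚ) := by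
  unfold avgTwoDegree
  exact congrArg₂ (· / ·)
    (Finset.sum_congr (neighborFinset_inst G i _ _) fun j _ =>
      congrArg (Nat.cast : ℕ → ℚ) (degree_inst G j _ _))
    (congrArg (Nat.cast : ℕ → ℚ) (degree_inst G i _ _))

theorem G19_pseudo : IsPseudoRegular 16 G19 := by
  refine ⟨by norm_num, G19_conn, ?_, 0, 2, ?_⟩
  · intro i
    have h1 := G19_sum i
    have h2 : (G19.degree i : ℚ) ≠ 0 := by exact_mod_cast G19_deg i
    rw [avgTwoDegree_eq, div_eq_iff h2]
    exact_mod_cast h1
  · intro h
    exact G19_ne ((degree_inst G19 0 _ _).trans (h.trans (degree_inst G19 2 _ _)))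

/-! ### Nonexistence on 20 vertices -/

open Pool.Agent.Helper54.PseudoGraph in
open Classical in
theorem no_twenty (G : SimpleGraph (Fin 20)) : ¬ IsPseudoRegular 16 G := by
  rintro ⟨-, hconn, hharm, i0, j0, hne⟩
  have hdpos : ∀ v, 0 < G.degree v := fun v => hconn.preconnected.degree_pos_of_nontrivial v
  have hsum : ∀ v, ∑ u ∈ G.neighborFinset v, G.degree u = 16 * G.degree v := by
    intro v
    have h1 := hharm v
    unfold avgTwoDegree at h1
    have h2 : (G.degree v : ℚ) ≠ 0 := by exact_mod_cast (hdpos v).ne'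
    rw [div_eq_iff h2] at h1
    exact_mod_cast h1
  -- the deviations
  let x : Fin 20 → ℤ := fun v => 16 - (G.degree v : ℤ)
  have hx : ∀ v, x v = 16 - (G.degree v : ℤ) := fun v => rfl
  have hx0 : ∀ v, ∑ u ∈ G.neighborFinset v, x u = 0 := by
    intro v
    simp only [hx, Finset.sum_sub_distrib, Finset.sum_const, SimpleGraph.card_neighborFinset_eq_degree]
    have h1 : (∑ u ∈ G.neighborFinset v, (G.degree u : ℤ)) = 16 * (G.degree v : ℤ) := by
      exact_mod_cast hsum v
    rw [h1, nsmul_eq_mul]
    ring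
  have hdx : ∑ v, (G.degree v : ℤ) * x v = 0 := by
    have h1 : ∑ v, ∑ u ∈ G.neighborFinset v, x u = 0 := Finset.sum_eq_zero fun v _ => hx0 v
    have h2 : ∀ v, ∑ u ∈ G.neighborFinset v, x u = ∑ u, if G.Adj v u then x u else 0 := by
      intro v
      rw [← Finset.sum_filter]
      apply Finset.sum_congr _ (fun _ _ => rfl)
      ext u
      simp
    rw [Finset.sum_congr rfl fun v _ => h2 v, Finset.sum_comm] at h1
    rw [← h1]
    apply Finset.sum_congr rfl
    intro u _
    rw [← Finset.sum_filter, Finset.sum_const, nsmul_eq_mul]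
    congr 2
    rw [← SimpleGraph.card_neighborFinset_eq_degree]
    congr 1
    ext v
    simp [G.adj_comm]
  have hsq : ∑ v, x v * x v = 16 * ∑ v, x v := by
    have : ∑ v, (G.degree v : ℤ) * x v = 16 * ∑ v, x v - ∑ v, x v * x v := by
      rw [Finset.mul_sum, ← Finset.sum_sub_distrib]
      apply Finset.sum_congr rfl
      intro v _
      rw [hx]
      ring
    linarith
  obtain ⟨σ, hσ⟩ : ∃ σ, σ = ∑ v, x v := ⟨_, rfl⟩
  rw [← hσ] at hsq
  have hσpos : 0 < σ := by
    have h1 : 0 ≤ ∑ v, x v * x v := Finset.sum_nonneg fun v _ => mul_self_nonneg _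
    rcases lt_or_eq_of_le (show 0 ≤ σ by omega) with h | h
    · exact h
    · exfalso
      rw [← h, mul_zero] at hsq
      have h2 := (Finset.sum_eq_zero_iff_of_nonneg fun v _ => mul_self_nonneg (x v)).1 hsq
      have h3 : ∀ v, G.degree v = 16 := by
        intro v
        have := mul_self_eq_zero.1 (h2 v (mem_univ v))
        rw [hx] at this
        omega
      exact hne (by rw [h3, h3])
  -- closed neighbourhood sums in the complement
  have hcompl : ∀ v, Gᶜ.neighborFinset v = (G.neighborFinset v)ᶜ \ {v} := by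
    intro v
    ext u
    simp only [SimpleGraph.mem_neighborFinset, SimpleGraph.compl_adj, mem_sdiff, mem_compl,
      mem_singleton]
    constructor
    · rintro ⟨h1, h2⟩
      exact ⟨h2, fun h => h1 h.symm⟩
    · rintro ⟨h1, h2⟩
      exact ⟨fun h => h2 h.symm, h1⟩
  have hsplit : ∀ (g : Fin 20 → ℤ) (v : Fin 20),
      ∑ u, g u = ∑ u ∈ G.neighborFinset v, g u + g v + ∑ u ∈ Gᶜ.neighborFinset v, g u := by
    intro g v
    rw [hcompl, ← Finset.sum_add_sum_compl (G.neighborFinset v) g, add_assoc]
    congr 1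
    have hmem : v ∈ (G.neighborFinset v)ᶜ := by simp
    rw [← Finset.add_sum_erase _ g hmem, Finset.sdiff_singleton_eq_erase]
  have hnbrx : ∀ v, ∑ u ∈ Gᶜ.neighborFinset v, x u = σ - x v := by
    intro v
    have := hsplit x v
    rw [hx0, ← hσ] at this
    linarith
  have hcardc : ∀ v, ((Gᶜ.neighborFinset v).card : ℤ) = 19 - G.degree v := by
    intro v
    have := hsplit (fun _ => 1) v
    simp only [Finset.sum_const, Finset.card_univ, Fintype.card_fin, nsmul_eq_mul, mul_one,
      SimpleGraph.card_neighborFinset_eq_degree] at this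
    rw [SimpleGraph.card_neighborFinset_eq_degree]
    push_cast at this
    linarith
  have hd18 : ∀ v, G.degree v ≤ 18 := by
    intro v
    by_contra hv
    have h1 := hcardc v
    have h2 : (Gᶜ.neighborFinset v).card = 0 := by omega
    have h3 := hnbrx v
    rw [Finset.card_eq_zero.1 h2, Finset.sum_empty, hx] at h3
    omega
  let Y : Fin 20 → ℕ := fun v => 18 - G.degree v
  have hY : ∀ v, (Y v : ℤ) = x v + 2 := by
    intro v
    have h1 := hd18 v
    have h2 : Y v = 18 - G.degree v := rfl
    rw [hx]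
    omega
  obtain ⟨s, hs⟩ : ∃ s : ℕ, (s : ℤ) = σ + 4 := ⟨(σ + 4).toNat, by omega⟩
  have hSys : Sys Gᶜ Y s := by
    refine ⟨by simp, ?_, ?_, ?_, ?_, ?_⟩
    · intro v
      have h1 := hdpos v
      have h2 : Y v = 18 - G.degree v := rfl
      omega
    · intro v
      have h1 := hcardc v
      have h2 := hY v
      rw [hx] at h2
      omega
    · intro v
      have h1 : (∑ u ∈ Gᶜ.neighborFinset v, (Y u : ℤ)) = (s : ℤ) + Y v := by
        rw [Finset.sum_congr rfl fun u _ => hY u, Finset.sum_add_distrib, hnbrx,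
          Finset.sum_const, nsmul_eq_mul, hcardc, hY, hs, hx]
        ring
      exact_mod_cast h1
    · have h1 : (∑ u, (Y u : ℤ)) = (s : ℤ) + 36 := by
        rw [Finset.sum_congr rfl fun u _ => hY u, Finset.sum_add_distrib, ← hσ, hs]
        simp
        ring
      exact_mod_cast h1
    · have h1 : (∑ u, (Y u : ℤ) * Y u) = 20 * (s : ℤ) := by
        have h2 : ∀ u, (Y u : ℤ) * Y u = x u * x u + 4 * x u + 4 := by
          intro u
          rw [hY]
          ring
        rw [Finset.sum_congr rfl fun u _ => h2 u, Finset.sum_add_distrib, Finset.sum_add_distrib,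
          ← Finset.mul_sum, hsq, ← hσ, hs]
        simp
        ring
      exact_mod_cast h1
  refine sys_false hSys (by omega) ?_
  -- some vertex has value at most 1
  by_contra hno
  push Not at hno
  have hxnn : ∀ v, 0 ≤ x v := by
    intro v
    have h1 := hY v
    have h2 := hno v
    omega
  obtain ⟨v, hv⟩ : ∃ v, 0 < x v := by
    by_contra h
    push Not at h
    have : σ ≤ 0 := by
      rw [hσ]
      exact Finset.sum_nonpos fun v _ => h v
    omega
  obtain ⟨u, hu⟩ := (G.degree_pos_iff_exists_adj v).1 (hdpos v)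
  have h1 := (Finset.sum_eq_zero_iff_of_nonneg fun w _ => hxnn w).1 (hx0 u) v (by simp [hu.symm])
  omega

/-- There is a pseudo 16-regular graph on 19 vertices, so `N(16) ≤ 19`, but there is no pseudo
16-regular graph on 20 vertices. -/
theorem result : (∃ G : SimpleGraph (Fin 19), IsPseudoRegular 16 G) ∧ N 16 ≤ 19 ∧
    ¬ ∃ G : SimpleGraph (Fin 20), IsPseudoRegular 16 G :=
  ⟨⟨G19, G19_pseudo⟩, Nat.sInf_le ⟨G19, G19_pseudo⟩, fun ⟨G, hG⟩ => no_twenty G hG⟩

end Pool.Agent.Results.MP_1ed35b_co.GapAtTwenty
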